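import Pool.Agent.Y966.NQ.Defs

/-! Basic properties of the martingale with the letter weights `th z^e`. -/

set_option autoImplicit false
set_option linter.unusedVariables false

namespace Pool.Agent.Y966.NQ

open Finset Pool.Agent.H320R2.PD Pool.Agent.H377R2.NK

section Basic

variable {p : ℕ}

private theorem append_eq {u v : List ℕ} {x : ℤ}
    (hu : (p : ℤ) ^ u.length ∣ 2 ^ u.sum * x - Wp p u) :
    (2 : ℤ) ^ (u ++ v).sum * x - Wp p (u ++ v) =
      (p : ℤ) ^ u.length * (2 ^ v.sum * en p u x - Wp p v) := by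
  have h1 : (p : ℤ) ^ u.length * en p u x = 2 ^ u.sum * x - Wp p u := by
    unfold en
    exact Int.mul_ediv_cancel' hu
  rw [Wp_append, List.sum_append, pow_add]
  push_cast
  have : (2 : ℤ) ^ u.sum * 2 ^ v.sum * x - (2 ^ v.sum * (Wp p u : ℤ) + (p : ℤ) ^ u.length * Wp p v) =
      2 ^ v.sum * (2 ^ u.sum * x - Wp p u) - (p : ℤ) ^ u.length * Wp p v := by ring
  rw [this, ← h1]
  ring

private theorem valid_append_iff (hp : Odd p) {u v : List ℕ} {x : ℤ} :
    ((p : ℤ) ^ (u ++ v).length ∣ 2 ^ (u ++ v).sum * x - Wp p (u ++ v)) ↔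
    ((p : ℤ) ^ u.length ∣ 2 ^ u.sum * x - Wp p u) ∧
      ((p : ℤ) ^ v.length ∣ 2 ^ v.sum * en p u x - Wp p v) := by
  have hp0 : (p : ℤ) ≠ 0 := by
    have := hp.pos
    exact_mod_cast (by omega : p ≠ 0)
  constructor
  · intro h
    have hu : (p : ℤ) ^ u.length ∣ 2 ^ u.sum * x - Wp p u := by
      have h1 : (p : ℤ) ^ u.length ∣ 2 ^ (u ++ v).sum * x - Wp p (u ++ v) := by
        refine dvd_trans ?_ h
        rw [List.length_append, pow_add]
        exact Dvd.intro _ rfl
      have h2 : (2 : ℤ) ^ (u ++ v).sum * x - Wp p (u ++ v) =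
          2 ^ v.sum * (2 ^ u.sum * x - Wp p u) - (p : ℤ) ^ u.length * Wp p v := by
        rw [Wp_append, List.sum_append, pow_add]
        push_cast
        ring
      rw [h2] at h1
      have h3 : (p : ℤ) ^ u.length ∣ 2 ^ v.sum * (2 ^ u.sum * x - Wp p u) := by
        have := dvd_add h1 (Dvd.intro (Wp p v : ℤ) rfl : (p : ℤ) ^ u.length ∣ (p : ℤ) ^ u.length * Wp p v)
        rwa [sub_add_cancel] at this
      have hcop : IsCoprime ((p : ℤ) ^ u.length) ((2 : ℤ) ^ v.sum) := by
        apply IsCoprime.pow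
        rw [Int.isCoprime_iff_gcd_eq_one]
        have : Nat.Coprime p 2 := (Nat.coprime_two_right).2 hp
        exact_mod_cast this
      exact hcop.dvd_of_dvd_mul_left h3
    refine ⟨hu, ?_⟩
    rw [append_eq (v := v) hu, List.length_append, pow_add] at h
    exact (mul_dvd_mul_iff_left (pow_ne_zero _ hp0)).1 h
  · rintro ⟨hu, hv⟩
    exact (en_append hp hu hv).1

variable {z : ℝ} [hz : Fact (ZC p z)]

theorem DD_zero (A : ℕ) (x : ℤ) : DD p z A 0 x = 1 := by
  have : VW p A 0 x = {[]} := by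
    ext w
    rw [mem_VW, Finset.mem_singleton]
    constructor
    · rintro ⟨h, _⟩; exact List.length_eq_zero_iff.1 h
    · rintro rfl; simp
  unfold DD
  rw [this]
  simp [zw]

theorem DD_nonneg (A n : ℕ) (x : ℤ) : 0 ≤ DD p z A n x := by
  unfold DD
  exact Finset.sum_nonneg (fun w _ => zw_nonneg _)

theorem DD_mono (n : ℕ) (x : ℤ) {A A' : ℕ} (h : A ≤ A') : DD p z A n x ≤ DD p z A' n x := by
  unfold DD
  apply Finset.sum_le_sum_of_subset_of_nonneg
  · intro w hw
    rw [mem_VW] at hw ⊢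
    exact ⟨hw.1, fun e he => ⟨(hw.2.1 e he).1, (hw.2.1 e he).2.trans h⟩, hw.2.2⟩
  · intro w _ _
    exact zw_nonneg _

theorem DD_shift (A n : ℕ) (x y : ℤ) : DD p z A n (x + (p : ℤ) ^ n * y) = DD p z A n x := by
  unfold DD
  rw [VW_shift]

/-- splitting after `k` letters -/
theorem DD_add (hp : Odd p) (A k m : ℕ) (x : ℤ) :
    DD p z A (k + m) x = ∑ w ∈ VW p A k x, zw p z w * DD p z A m (en p w x) := by
  classical
  unfold DD VW
  rw [Finset.sum_filter, sum_FW_add, Finset.sum_filter]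
  apply Finset.sum_congr rfl
  intro u hu
  rw [mem_FW] at hu
  by_cases h : (p : ℤ) ^ k ∣ 2 ^ u.sum * x - Wp p u
  · rw [if_pos h, Finset.mul_sum, Finset.sum_filter]
    apply Finset.sum_congr rfl
    intro v hv
    rw [mem_FW] at hv
    have hiff := valid_append_iff hp (u := u) (v := v) (x := x)
    rw [List.length_append, hu.1, hv.1] at hiff
    by_cases h2 : (p : ℤ) ^ m ∣ 2 ^ v.sum * en p u x - Wp p v
    · rw [if_pos (hiff.2 ⟨h, h2⟩), if_pos h2, zw_append]
    · rw [if_neg (fun hh => h2 (hiff.1 hh).2), if_neg h2]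
  · rw [if_neg h]
    apply Finset.sum_eq_zero
    intro v hv
    rw [mem_FW] at hv
    have hiff := valid_append_iff hp (u := u) (v := v) (x := x)
    rw [List.length_append, hu.1, hv.1] at hiff
    rw [if_neg (fun hh => h (hiff.1 hh).1)]

theorem zw_nil : zw p z [] = 1 := by simp [zw]

theorem sum_zw (A n : ℕ) :
    ∑ w ∈ FW A n, zw p z w = (p * (1 - z ^ A)) ^ n := by
  induction n with
  | zero => simp [FW, zw]
  | succ n ih =>
    rw [sum_FW_succ, ← th_geom, pow_succ', sum_mul]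
    refine sum_congr rfl fun e _ => ?_
    rw [th_geom, ← ih, mul_sum]
    refine sum_congr rfl fun v _ => ?_
    rw [zw_cons]

theorem DD_one_le (hp : 1 ≤ p) (A : ℕ) (x : ℤ) : DD p z A 1 x ≤ p := by
  classical
  have h1 : DD p z A 1 x ≤ ∑ w ∈ FW A 1, zw p z w := by
    unfold DD VW
    exact Finset.sum_le_sum_of_subset_of_nonneg (Finset.filter_subset _ _)
      (fun w _ _ => zw_nonneg _)
  rw [sum_zw, pow_one] at h1
  have h2 : 0 ≤ (p : ℝ) * z ^ A := mul_nonneg (by positivity) (pow_nonneg hz.out.pos.le _)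
  linarith

theorem DD_succ_le (hp : Odd p) (A n : ℕ) (x : ℤ) : DD p z A (n + 1) x ≤ p * DD p z A n x := by
  rw [DD_add hp]
  have : (p : ℝ) * DD p z A n x = ∑ w ∈ VW p A n x, zw p z w * p := by
    unfold DD
    rw [Finset.mul_sum]
    exact Finset.sum_congr rfl (fun w _ => mul_comm _ _)
  rw [this]
  apply Finset.sum_le_sum
  intro w _
  exact mul_le_mul_of_nonneg_left (DD_one_le hp.pos A _) (zw_nonneg _)

theorem DD_le (hp : Odd p) (A n : ℕ) (x : ℤ) : DD p z A n x ≤ (p : ℝ) ^ n := by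
  induction n with
  | zero => rw [DD_zero, pow_zero]
  | succ n ih =>
    calc DD p z A (n + 1) x ≤ p * DD p z A n x := DD_succ_le hp A n x
      _ ≤ p * (p : ℝ) ^ n := mul_le_mul_of_nonneg_left ih (by positivity)
      _ = (p : ℝ) ^ (n + 1) := by ring

end Basic

end Pool.Agent.Y966.NQ
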