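import Pool.Agent.Y966.NQ.Basic

/-! Sums over residues, lifts, moments, truncated martingale, for the letter weights `th z^e`. -/

set_option autoImplicit false
set_option linter.unusedVariables false

namespace Pool.Agent.Y966.NQ

open Finset Pool.Agent.H320R2.PD Pool.Agent.H377R2.NK

section Basic2

variable {p M : ℕ} {z : ℝ} [hz : Fact (ZC p z)]

/-- total mass -/
theorem DD_total (hp : Odd p) (A n : ℕ) :
    ∑ x ∈ range (p ^ n), DD p z A n (x : ℤ) = ((p : ℝ) * (1 - z ^ A)) ^ n := by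
  classical
  rw [← sum_zw]
  have e1 : ∀ x : ℕ, DD p z A n (x : ℤ) = ∑ w ∈ FW A n,
      (zw p z w * if (p : ℤ) ^ n ∣ 2 ^ w.sum * (x : ℤ) - Wp p w then (1 : ℝ) else 0) := by
    intro x
    unfold DD VW
    rw [sum_filter]
    refine sum_congr rfl fun w _ => ?_
    split_ifs <;> simp
  simp only [e1]
  rw [sum_comm]
  refine sum_congr rfl fun w _ => ?_
  rw [← mul_sum, U4_count hp, mul_one]

theorem U4_DD_eq (hp : Odd p) (A i l : ℕ) (x : ℤ) (v : ℤ) :
    DD p z A (i + l) (x + (p : ℤ) ^ i * v) =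
      ∑ w ∈ VW p A i x, zw p z w * DD p z A l (en p w x + 2 ^ w.sum * v) := by
  rw [DD_add hp, VW_shift]
  refine sum_congr rfl fun w hw => ?_
  have hl : w.length = i := (mem_VW.1 hw).1
  have h := en_shift (U4_one_le hp) (w := w) x v
  rw [hl] at h
  rw [h]

theorem U4_total_le (hp : Odd p) (A n : ℕ) :
    ((p : ℝ) * (1 - z ^ A)) ^ n ≤ (p : ℝ) ^ n := by
  have h0 : 0 ≤ z := (Fact.out (p := ZC p z)).pos.le
  have h1 : z ^ A ≤ 1 := pow_le_one₀ h0 (Fact.out (p := ZC p z)).lt.le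
  have h2 : 0 ≤ z ^ A := pow_nonneg h0 A
  have hp0 : (0 : ℝ) ≤ p := Nat.cast_nonneg p
  apply pow_le_pow_left₀
  · exact mul_nonneg hp0 (by linarith)
  · nlinarith

theorem U4_sum_aff (hp : Odd p) (A l s : ℕ) (c : ℤ) (F : ℝ → ℝ) :
    ∑ v ∈ range (p ^ l), F (DD p z A l (c + 2 ^ s * (v : ℤ))) =
      ∑ v ∈ range (p ^ l), F (DD p z A l (v : ℤ)) :=
  sum_affine (U4_one_le hp) l (2 ^ s) c (U4_coprime hp s) (h := fun x => F (DD p z A l x))
    (fun x y => by simp only [DD_shift])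

theorem DD_lift (hp : Odd p) (A i l : ℕ) (x : ℤ) :
    ∑ v ∈ range (p ^ l), DD p z A (i + l) (x + (p : ℤ) ^ i * v) ≤ (p : ℝ) ^ l * DD p z A i x := by
  simp only [U4_DD_eq hp]
  rw [sum_comm]
  have h1 : ∀ w ∈ VW p A i x, ∑ v ∈ range (p ^ l),
      zw p z w * DD p z A l (en p w x + 2 ^ w.sum * (v : ℤ)) ≤ (p : ℝ) ^ l * zw p z w := by
    intro w _
    rw [← mul_sum, mul_comm]
    apply mul_le_mul_of_nonneg_right _ (zw_nonneg _)
    have h := U4_sum_aff (z := z) hp A l w.sum (en p w x) (fun y => y)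
    rw [h, DD_total hp]
    exact U4_total_le hp A l
  refine (sum_le_sum h1).trans ?_
  rw [← mul_sum]
  rfl

theorem U4_Zq_nonneg (A n q : ℕ) : 0 ≤ Zq p z A n q :=
  sum_nonneg fun x _ => pow_nonneg (DD_nonneg A n x) q

theorem DD_lift_pow (hp : Odd p) {q : ℕ} (hq : 1 ≤ q) (A i l : ℕ) (x : ℤ) :
    ∑ v ∈ range (p ^ l), DD p z A (i + l) (x + (p : ℤ) ^ i * v) ^ q
      ≤ DD p z A i x ^ q * Zq p z A l q := by
  simp only [U4_DD_eq hp]
  have h := U4_mink (VW p A i x) (range (p ^ l)) (fun w => zw p z w) (fun _ => 1)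
    (fun w v => DD p z A l (en p w x + 2 ^ w.sum * (v : ℤ))) (Zq p z A l q)
    (fun w _ => zw_nonneg _) (fun _ _ => zero_le_one)
    (fun w _ v _ => DD_nonneg A l _) hq
    (fun w _ => by
      rw [one_pow, one_mul]
      exact (U4_sum_aff hp A l w.sum (en p w x) (fun y => y ^ q)).le) (U4_Zq_nonneg A l q)
  simp only [mul_one] at h
  exact h

theorem Zq_sub (hp : Odd p) {q : ℕ} (hq : 1 ≤ q) (A k m : ℕ) :
    Zq p z A (k + m) q ≤ Zq p z A k q * Zq p z A m q := by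
  have e1 : Zq p z A (k + m) q = ∑ x ∈ range (p ^ k), ∑ v ∈ range (p ^ m),
      DD p z A (k + m) ((x : ℤ) + (p : ℤ) ^ k * (v : ℤ)) ^ q := by
    unfold Zq
    rw [pow_add, U4_split]
    refine sum_congr rfl fun x _ => sum_congr rfl fun v _ => ?_
    push_cast
    rfl
  rw [e1]
  calc _ ≤ ∑ x ∈ range (p ^ k), DD p z A k (x : ℤ) ^ q * Zq p z A m q :=
        sum_le_sum fun x _ => DD_lift_pow hp hq A k m x
    _ = Zq p z A k q * Zq p z A m q := by rw [← sum_mul]; rfl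

theorem VS_shift (A n : ℕ) (x y : ℤ) : VS p M A n (x + (p : ℤ) ^ n * y) = VS p M A n x := by
  unfold VS
  rw [VW_shift]

theorem GG_nonneg (A k i : ℕ) (x : ℤ) : 0 ≤ GG p z M A k i x :=
  sum_nonneg fun w _ => mul_nonneg (zw_nonneg _) (DD_nonneg A i _)

theorem GG_le (hp : Odd p) (A k i : ℕ) (x : ℤ) : GG p z M A k i x ≤ DD p z A (k + i) x := by
  rw [DD_add hp]
  unfold GG VS
  refine sum_le_sum_of_subset_of_nonneg (filter_subset _ _) fun w _ _ => ?_
  exact mul_nonneg (zw_nonneg _) (DD_nonneg A i _)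

theorem U4_GG_eq (hp : Odd p) (A k i : ℕ) (x v : ℤ) :
    GG p z M A k i (x + (p : ℤ) ^ k * v) =
      ∑ w ∈ VS p M A k x, zw p z w * DD p z A i (en p w x + 2 ^ w.sum * v) := by
  unfold GG
  rw [VS_shift]
  refine sum_congr rfl fun w hw => ?_
  have hl : w.length = k := by
    unfold VS at hw
    exact (mem_VW.1 (mem_filter.1 hw).1).1
  have h := en_shift (U4_one_le hp) (w := w) x v
  rw [hl] at h
  rw [h]

theorem GG_shift (hp : Odd p) (A k i : ℕ) (x y : ℤ) :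
    GG p z M A k i (x + (p : ℤ) ^ (k + i) * y) = GG p z M A k i x := by
  have e : x + (p : ℤ) ^ (k + i) * y = x + (p : ℤ) ^ k * ((p : ℤ) ^ i * y) := by ring
  rw [e, U4_GG_eq hp]
  refine sum_congr rfl fun w _ => ?_
  have e2 : en p w x + 2 ^ w.sum * ((p : ℤ) ^ i * y) =
      en p w x + (p : ℤ) ^ i * (2 ^ w.sum * y) := by ring
  rw [e2, DD_shift]

theorem GG_succ_le (hp : Odd p) (A k i : ℕ) (x : ℤ) :
    GG p z M A k (i + 1) x ≤ p * GG p z M A k i x := by
  unfold GG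
  rw [mul_sum]
  refine sum_le_sum fun w _ => ?_
  calc zw p z w * DD p z A (i + 1) (en p w x)
      ≤ zw p z w * (p * DD p z A i (en p w x)) :=
        mul_le_mul_of_nonneg_left (DD_succ_le hp A i _) (zw_nonneg _)
    _ = p * (zw p z w * DD p z A i (en p w x)) := by ring

theorem U4_inner (hp : Odd p) (A i l s : ℕ) (e : ℤ) (F : ℝ → ℝ) :
    ∑ v ∈ range (p ^ l), F (DD p z A (i + l) (e + 2 ^ s * ((p : ℤ) ^ i * (v : ℤ)))) =
      ∑ v ∈ range (p ^ l), F (DD p z A (i + l) (e + (p : ℤ) ^ i * (v : ℤ))) := by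
  have h := sum_affine (U4_one_le hp) l (2 ^ s) 0 (U4_coprime hp s)
    (h := fun v => F (DD p z A (i + l) (e + (p : ℤ) ^ i * v))) (fun x y => by
      have : e + (p : ℤ) ^ i * (x + (p : ℤ) ^ l * y) =
        (e + (p : ℤ) ^ i * x) + (p : ℤ) ^ (i + l) * y := by ring
      simp only [this, DD_shift])
  rw [← h]
  refine sum_congr rfl fun v _ => ?_
  have : e + 2 ^ s * ((p : ℤ) ^ i * (v : ℤ)) = e + (p : ℤ) ^ i * (0 + 2 ^ s * (v : ℤ)) := by ring
  simp only [this]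

theorem U4_GG_eq' (hp : Odd p) (A k i l : ℕ) (x v : ℤ) :
    GG p z M A k (i + l) (x + (p : ℤ) ^ (k + i) * v) =
      ∑ w ∈ VS p M A k x, zw p z w *
        DD p z A (i + l) (en p w x + 2 ^ w.sum * ((p : ℤ) ^ i * v)) := by
  have e : x + (p : ℤ) ^ (k + i) * v = x + (p : ℤ) ^ k * ((p : ℤ) ^ i * v) := by ring
  rw [e, U4_GG_eq hp]

theorem GG_lift (hp : Odd p) (A k i l : ℕ) (x : ℤ) :
    ∑ v ∈ range (p ^ l), GG p z M A k (i + l) (x + (p : ℤ) ^ (k + i) * v)
      ≤ (p : ℝ) ^ l * GG p z M A k i x := by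
  simp only [U4_GG_eq' hp]
  rw [sum_comm]
  unfold GG
  rw [mul_sum]
  refine sum_le_sum fun w _ => ?_
  rw [← mul_sum]
  have h := U4_inner (z := z) hp A i l w.sum (en p w x) (fun y => y)
  rw [h]
  calc zw p z w * ∑ v ∈ range (p ^ l), DD p z A (i + l) (en p w x + (p : ℤ) ^ i * (v : ℤ))
      ≤ zw p z w * ((p : ℝ) ^ l * DD p z A i (en p w x)) :=
        mul_le_mul_of_nonneg_left (DD_lift hp A i l _) (zw_nonneg _)
    _ = _ := by ring

theorem GG_lift_pow (hp : Odd p) {q : ℕ} (hq : 1 ≤ q) (A k i l : ℕ) (x : ℤ) :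
    ∑ v ∈ range (p ^ l), GG p z M A k (i + l) (x + (p : ℤ) ^ (k + i) * v) ^ q
      ≤ GG p z M A k i x ^ q * Zq p z A l q := by
  simp only [U4_GG_eq' hp]
  have h := U4_mink (VS p M A k x) (range (p ^ l)) (fun w => zw p z w)
    (fun w => DD p z A i (en p w x))
    (fun w v => DD p z A (i + l) (en p w x + 2 ^ w.sum * ((p : ℤ) ^ i * (v : ℤ)))) (Zq p z A l q)
    (fun w _ => zw_nonneg _) (fun w _ => DD_nonneg A i _)
    (fun w _ v _ => DD_nonneg A (i + l) _) hq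
    (fun w _ => by
      have h1 := U4_inner (z := z) hp A i l w.sum (en p w x) (fun y => y ^ q)
      rw [h1]
      exact DD_lift_pow hp hq A i l _) (U4_Zq_nonneg A l q)
  exact h

theorem Zq_pos (hp : Odd p) (A n q : ℕ) (hA : 1 ≤ A) : 0 < Zq p z A n q := by
  have hp1 := U4_one_le hp
  have hz0 : 0 ≤ z := (Fact.out (p := ZC p z)).pos.le
  have hz1 : z ^ A < 1 := pow_lt_one₀ hz0 (Fact.out (p := ZC p z)).lt (by omega)
  have htot : 0 < ((p : ℝ) * (1 - z ^ A)) ^ n := by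
    have : (0 : ℝ) < p := by exact_mod_cast hp1
    have h1 : 0 < 1 - z ^ A := by linarith
    positivity
  rw [← DD_total hp A n] at htot
  have hex : ∃ x ∈ range (p ^ n), 0 < DD p z A n (x : ℤ) := by
    by_contra hcon
    push Not at hcon
    exact absurd (sum_nonpos hcon) (not_le.2 htot)
  obtain ⟨x, hx, hx0⟩ := hex
  exact sum_pos' (fun y _ => pow_nonneg (DD_nonneg A n _) q) ⟨x, hx, pow_pos hx0 q⟩

end Basic2

end Pool.Agent.Y966.NQ
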