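import Pool.Agent.H377R2.NK.Basic2

/-!
Inverse trees of the `3x+1` map with the letter weights `th z^e`, `0 < z < 1` arbitrary: definitions.
This generalises `Pool/Agent/H377R2/NK/Defs.lean` (the critical weight `z = p/(p+1)`, `th = 1`) and
`Pool/Agent/Y966/NZ/Defs.lean` (the weights with `p (1 - z) < 1`).
-/

set_option autoImplicit false
set_option linter.unusedVariables false

namespace Pool.Agent.Y966.NQ

open Finset Pool.Agent.H320R2.PD Pool.Agent.H377R2.NK

/-- admissible parameters of the weight -/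
structure ZC (p : ℕ) (z : ℝ) : Prop where
  p1 : 1 ≤ p
  pos : 0 < z
  lt : z < 1

/-- the growth rate of the sum of the `q`-th powers of the weights of the words -/
noncomputable def L1 (p : ℕ) (z : ℝ) (q : ℕ) : ℝ :=
  Real.log (((p : ℝ) * (1 - z)) ^ q / (1 - z ^ q))

/-- the factor of the letter weight, `∑_{e ≥ 1} th z^e = p` -/
noncomputable def th (p : ℕ) (z : ℝ) : ℝ := (p : ℝ) * (1 - z) / z

/-- the weight of a word -/
noncomputable def zw (p : ℕ) (z : ℝ) (w : List ℕ) : ℝ := th p z ^ w.length * z ^ w.sum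

/-- the martingale (mean one) -/
noncomputable def DD (p : ℕ) (z : ℝ) (A n : ℕ) (x : ℤ) : ℝ := ∑ w ∈ VW p A n x, zw p z w

/-- moment of order `q` -/
noncomputable def Zq (p : ℕ) (z : ℝ) (A n q : ℕ) : ℝ := ∑ x ∈ range (p ^ n), DD p z A n (x : ℤ) ^ q

/-- supremum over the letter cap -/
noncomputable def sZ (p : ℕ) (z : ℝ) (q n : ℕ) : ℝ := ⨆ A : ℕ, Zq p z A n q

/-- admissible words of length `k`: valid and of size at most `M k` -/
noncomputable def VS (p M A k : ℕ) (x : ℤ) : Finset (List ℕ) :=
  (VW p A k x).filter fun w => w.sum ≤ M * k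

/-- truncated martingale: the first `k` letters are admissible, then `i` more letters -/
noncomputable def GG (p : ℕ) (z : ℝ) (M A k i : ℕ) (x : ℤ) : ℝ :=
  ∑ w ∈ VS p M A k x, zw p z w * DD p z A i (en p w x)

/-- the truncated moment -/
noncomputable def ZG (p : ℕ) (z : ℝ) (M A k m q : ℕ) : ℝ :=
  ∑ x ∈ range (p ^ (k + m)), GG p z M A k m (x : ℤ) ^ q

open scoped Classical in
/-- the underlying set of the Gibbs law -/
noncomputable def Gs (p M A k m : ℕ) : Finset (ℕ × List ℕ) :=
  (range (p ^ (k + m)) ×ˢ FW A k).filter fun ω => ω.2 ∈ VS p M A k (ω.1 : ℤ)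

/-- the Gibbs law -/
noncomputable def Gw (p : ℕ) (z : ℝ) (M A k m q : ℕ) (ω : ℕ × List ℕ) : ℝ :=
  GG p z M A k m (ω.1 : ℤ) ^ (q - 1) * (zw p z ω.2 * DD p z A m (en p ω.2 (ω.1 : ℤ))) /
    ZG p z M A k m q

/-- ratios of the truncated martingale along windows of `l` digits -/
noncomputable def GR (p : ℕ) (z : ℝ) (M A k m l : ℕ) (i : ℕ) (g : ℕ × ℕ) (y : ℤ) : ℝ :=
  GG p z M A k (i + l) (Gr p k m g y) / GG p z M A k i (Gr p k m g y)

/-- the entropy defect of the Gibbs law -/
noncomputable def GE (p : ℕ) (z : ℝ) (M A k m q : ℕ) : ℝ :=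
  Real.log (Zq p z A k q) + Real.log (Zq p z A m q) - Real.log (ZG p z M A k m q)

section

variable {p : ℕ} {z : ℝ} [hz : Fact (ZC p z)]

include hz

theorem th_pos : 0 < th p z := by
  have h := hz.out
  have hp : (0 : ℝ) < p := by exact_mod_cast h.p1
  have h1 : 0 < 1 - z := by linarith [h.lt]
  have h2 := h.pos
  unfold th
  positivity

theorem zw_pos (w : List ℕ) : 0 < zw p z w := by
  have h := hz.out
  have h1 := th_pos (p := p) (z := z)
  have h2 := h.pos
  unfold zw
  positivity

theorem zw_nonneg (w : List ℕ) : 0 ≤ zw p z w := (zw_pos w).le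

theorem zw_append (u v : List ℕ) : zw p z (u ++ v) = zw p z u * zw p z v := by
  unfold zw
  rw [List.length_append, List.sum_append, pow_add, pow_add]
  ring

theorem zw_cons (e : ℕ) (v : List ℕ) : zw p z (e :: v) = (th p z * z ^ e) * zw p z v := by
  unfold zw
  rw [List.length_cons, List.sum_cons, pow_succ, pow_add]
  ring

theorem th_geom (A : ℕ) : ∑ e ∈ Icc 1 A, th p z * z ^ e = p * (1 - z ^ A) := by
  have h := hz.out
  have hz0 : z ≠ 0 := h.pos.ne'
  have e1 : th p z * z = p * (1 - z) := by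
    unfold th
    field_simp
  induction A with
  | zero => simp
  | succ A ih =>
    rw [sum_Icc_succ_top (by omega), ih, pow_succ]
    have h2 : th p z * (z ^ A * z) = z ^ A * (th p z * z) := by ring
    rw [h2, e1]
    ring

/-- words are light: the decisive condition -/
theorem zw_le (w : List ℕ) (hw : ∀ e ∈ w, 1 ≤ e) : zw p z w ≤ ((p : ℝ) * (1 - z)) ^ w.length := by
  have h := hz.out
  have hz0 : 0 < z := h.pos
  have h1 := th_pos (p := p) (z := z)
  have e1 : th p z * z = p * (1 - z) := by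
    unfold th
    field_simp
  have h2 : w.length ≤ w.sum := List.length_le_sum_of_one_le w hw
  unfold zw
  rw [← e1, mul_pow]
  apply mul_le_mul_of_nonneg_left _ (by positivity)
  exact pow_le_pow_of_le_one hz0.le h.lt.le h2

end

end Pool.Agent.Y966.NQ
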