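import Pool.Agent.H377R2.NK.Core
import Pool.Agent.Y966.NQ.Zsub
import Pool.Agent.Y966.NQ.LawR
import Pool.Agent.Y966.NQ.Law2

/-! Fekete's lemma, the contradiction with `core`, and the sup bound, for the weights `th z^e`. -/

set_option autoImplicit false

namespace Pool.Agent.Y966.NQ

open Finset Filter Topology Pool.Agent.H377R2.NK

section

variable {p q M : ℕ} {z : ℝ} [hz : Fact (ZC p z)]

lemma odd_of (hp : p = 3 ∨ p = 5) : Odd p := by rcases hp with rfl | rfl <;> decide

lemma prime_of (hp : p = 3 ∨ p = 5) : p.Prime := by rcases hp with rfl | rfl <;> norm_num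

lemma sZ_pos (hp : p = 3 ∨ p = 5) (hq : 2 ≤ q) (n : ℕ) : 0 < sZ p z q n := by
  have h := le_sZ (z := z) (odd_of hp) (q := q) (by omega) n
  have h2 : (0 : ℝ) < (p : ℝ) ^ n := by
    have : 0 < p := (prime_of hp).pos
    positivity
  linarith

lemma sub_log (hp : p = 3 ∨ p = 5) (hq : 2 ≤ q) : Subadditive fun n => Real.log (sZ p z q n) := by
  intro m n
  rw [← Real.log_mul (sZ_pos hp hq m).ne' (sZ_pos hp hq n).ne']
  exact Real.log_le_log (sZ_pos hp hq _) (sZ_sub (odd_of hp) (by omega) m n)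

lemma le_log_sZ (hp : p = 3 ∨ p = 5) (hq : 2 ≤ q) (n : ℕ) :
    (n : ℝ) * Real.log p ≤ Real.log (sZ p z q n) := by
  have h := le_sZ (z := z) (odd_of hp) (q := q) (by omega) n
  have h2 : (0 : ℝ) < (p : ℝ) ^ n := by
    have : 0 < p := (prime_of hp).pos
    positivity
  have h3 := Real.log_le_log h2 h
  rwa [Real.log_pow] at h3

lemma bdd (hp : p = 3 ∨ p = 5) (hq : 2 ≤ q) :
    BddBelow (Set.range fun n : ℕ => Real.log (sZ p z q n) / n) := by
  refine ⟨0, ?_⟩
  rintro _ ⟨n, rfl⟩
  have h := le_log_sZ (z := z) hp hq n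
  have hp1 : (1 : ℝ) ≤ p := by
    have : 1 ≤ p := (prime_of hp).one_le
    exact_mod_cast this
  have : 0 ≤ (n : ℝ) * Real.log p := mul_nonneg (Nat.cast_nonneg _) (Real.log_nonneg hp1)
  exact div_nonneg (by linarith) (Nat.cast_nonneg _)

lemma ZG_le (hp : p = 3 ∨ p = 5) (hq : 2 ≤ q) (A k m : ℕ) :
    ZG p z M A k m q ≤ Zq p z A (k + m) q := by
  unfold ZG Zq
  refine Finset.sum_le_sum fun x _ => ?_
  exact pow_le_pow_left₀ (GG_nonneg A k m _) (GG_le (odd_of hp) A k m _) q

lemma log_p_gt (hp : p = 3 ∨ p = 5) : 1 < Real.log p := by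
  have h3 : (1 : ℝ) < Real.log 3 := by
    have := Real.exp_one_lt_d9
    rw [Real.lt_log_iff_exp_lt (by norm_num)]
    linarith
  rcases hp with rfl | rfl
  · exact_mod_cast h3
  · refine lt_trans h3 ?_
    push_cast
    exact Real.log_lt_log (by norm_num) (by norm_num)

/-- the exponential growth rate of the moments -/
theorem lim_le (hp : p = 3 ∨ p = 5) (hq : 2 ≤ q) :
    (sub_log (p := p) (q := q) (z := z) hp hq).lim ≤ max (Real.log p) (L1 p z q) := by
  by_contra hcon
  push Not at hcon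
  set u : ℕ → ℝ := fun n => Real.log (sZ p z q n) with hu
  set L : ℝ := (sub_log (p := p) (q := q) (z := z) hp hq).lim with hL
  have hLp : Real.log p < L := lt_of_le_of_lt (le_max_left _ _) hcon
  have hLL : L1 p z q < L := lt_of_le_of_lt (le_max_right _ _) hcon
  set κ : ℝ := L - Real.log p with hκ
  have hκ0 : 0 < κ := by rw [hκ]; linarith
  have hodd := odd_of hp
  have hprime := prime_of hp
  have hlogp := log_p_gt hp
  have hLpos : 1 < L := by linarith
  have hzc := hz.out
  have hqr2 : (2 : ℝ) ≤ q := by exact_mod_cast hq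
  have hq10 : (0 : ℝ) < q - 1 := by linarith
  obtain ⟨M, hM1, hMa, hMb⟩ := exists_M hzc
  have hMr : (1 : ℝ) ≤ M := by exact_mod_cast hM1
  have hp0 : (0 : ℝ) < p := by exact_mod_cast hprime.pos
  set c : ℝ := (L - L1 p z q) / (2 * M * (q - 1)) with hc
  have hc0 : 0 < c := by
    rw [hc]
    apply div_pos (by linarith) (by positivity)
  have h120 : (L - L1 p z q) / (q - 1) = 2 * M * c := by
    rw [hc]
    field_simp
  obtain ⟨ε₀, hε₀, hcore⟩ := core hprime hq hc0 hκ0
  have htend : Tendsto (fun n : ℕ => u n / n) atTop (𝓝 L) :=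
    (sub_log (p := p) (q := q) (z := z) hp hq).tendsto_lim (bdd hp hq)
  have hLle : ∀ n : ℕ, n * L ≤ u n := by
    intro n
    rcases Nat.eq_zero_or_pos n with rfl | hn
    · have := le_log_sZ (z := z) hp hq 0
      simpa using this
    · have := (sub_log (p := p) (q := q) (z := z) hp hq).lim_le_div (bdd hp hq) hn.ne'
      have hn' : (0 : ℝ) < n := by exact_mod_cast hn
      rw [le_div_iff₀ hn'] at this
      linarith
  have hev : ∀ d : ℝ, 0 < d → ∃ n₁ : ℕ, 1 ≤ n₁ ∧ ∀ n, n₁ ≤ n → u n ≤ (L + d) * n := by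
    intro d hd
    have h1 : ∀ᶠ n : ℕ in atTop, u n / n < L + d := (tendsto_order.1 htend).2 _ (by linarith)
    obtain ⟨n₁, hn₁⟩ := eventually_atTop.1 h1
    refine ⟨max n₁ 1, le_max_right _ _, fun n hn => ?_⟩
    have hn1 : 1 ≤ n := le_trans (le_max_right _ _) hn
    have hn0 : (0 : ℝ) < n := by exact_mod_cast hn1
    have := hn₁ n (le_trans (le_max_left _ _) hn)
    rw [div_lt_iff₀ hn0] at this
    exact this.le
  -- the window length
  obtain ⟨l, hl1, hl⟩ := hev (ε₀ / 4) (by positivity)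
  have hul := hl l le_rfl
  have hlr : (0 : ℝ) < l := by exact_mod_cast hl1
  obtain ⟨δ, hδ, m₀, hm⟩ := hcore l hl1
  have hζ : (l : ℝ) * (Real.log p + κ) ≤ u l := by
    have := hLle l
    rw [hκ]
    linarith
  -- the small parameter
  set d : ℝ := min (c / 100) (min (δ / 100) (min (ε₀ / 100) (1 / M))) with hd
  have hd0 : 0 < d := by
    rw [hd]
    exact lt_min (by positivity) (lt_min (by positivity) (lt_min (by positivity) (by positivity)))
  have hdc : d ≤ c / 100 := min_le_left _ _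
  have hdδ : d ≤ δ / 100 := le_trans (min_le_right _ _) (min_le_left _ _)
  have hdε : d ≤ ε₀ / 100 :=
    le_trans (min_le_right _ _) (le_trans (min_le_right _ _) (min_le_left _ _))
  have hd1 : d ≤ 1 / M :=
    le_trans (min_le_right _ _) (le_trans (min_le_right _ _) (min_le_right _ _))
  have hdM : d * M ≤ 1 := by
    rwa [le_div_iff₀ (by positivity)] at hd1
  obtain ⟨n₁, hn₁, hev1⟩ := hev d hd0
  set K0 : ℝ := 4 * (q + 1) * Real.log 2 + c / 4 - 1 - Real.log (c / 4) with hK0
  obtain ⟨k₁, hk₁⟩ := exists_nat_ge (|K0| / (c / 2))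
  obtain ⟨k₂, hk₂⟩ := exists_nat_ge (4 * (q + 1) * Real.log 2 / (δ / 2))
  obtain ⟨k₃, hk₃⟩ := exists_nat_ge ((2 * (q + 1) * Real.log 2 + 2 * q * l * Real.log p) / (ε₀ / 2))
  set k : ℕ := n₁ + k₁ + k₂ + k₃ + m₀ + q + 1 with hk
  have hk1 : 1 ≤ k := by omega
  have hkr : (1 : ℝ) ≤ k := by exact_mod_cast hk1
  have hkk₁ : (k₁ : ℝ) ≤ k := by exact_mod_cast (show k₁ ≤ k by omega)
  have hkk₂ : (k₂ : ℝ) ≤ k := by exact_mod_cast (show k₂ ≤ k by omega)
  have hkk₃ : (k₃ : ℝ) ≤ k := by exact_mod_cast (show k₃ ≤ k by omega)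
  have hkq : ((q : ℝ) + 1) ≤ k := by exact_mod_cast (show q + 1 ≤ k by omega)
  have hkM : k ≤ M * k := Nat.le_mul_of_pos_left _ (by omega)
  have e1 : K0 ≤ c / 2 * k := by
    have h1 : |K0| / (c / 2) ≤ k := le_trans hk₁ hkk₁
    rw [div_le_iff₀ (by positivity)] at h1
    have := le_abs_self K0
    linarith
  have e2 : 4 * (q + 1) * Real.log 2 ≤ δ / 2 * k := by
    have h1 : 4 * (q + 1) * Real.log 2 / (δ / 2) ≤ k := le_trans hk₂ hkk₂
    rw [div_le_iff₀ (by positivity)] at h1
    linarith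
  have e3 : 2 * (q + 1) * Real.log 2 + 2 * q * l * Real.log p ≤ ε₀ / 2 * k := by
    have h1 := le_trans hk₃ hkk₃
    rw [div_le_iff₀ (by positivity)] at h1
    linarith
  have hlog2 : 0 < Real.log 2 := Real.log_pos (by norm_num)
  have hlog2' : Real.log 2 < 1 := by have := Real.log_two_lt_d9; linarith
  have huk : u k ≤ (L + d) * k := hev1 k (by omega)
  have hu60 : u (M * k) ≤ (L + d) * (M * k) := by
    have := hev1 (M * k) (by omega)
    push_cast at this
    exact this
  have hu61 : (k + M * k) * L ≤ u (k + M * k) := by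
    have := hLle (k + M * k)
    push_cast at this
    linarith
  -- the cap
  obtain ⟨A, hA1, hA⟩ := exists_cap (z := z) hodd (q := q) (by omega) k (k + M * k)
  obtain ⟨hcap1, hcap2⟩ := hA A le_rfl
  have hZk := Zq_pos (z := z) hodd A k q hA1
  have hZm := Zq_pos (z := z) hodd A (M * k) q hA1
  have hZn := Zq_pos (z := z) hodd A (k + M * k) q hA1
  have hlogZk : Real.log (Zq p z A k q) ≤ u k := Real.log_le_log hZk (Zq_le_sZ hodd A k q)
  have hlogZm : Real.log (Zq p z A (M * k) q) ≤ u (M * k) :=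
    Real.log_le_log hZm (Zq_le_sZ hodd A (M * k) q)
  have hlogZn : u (k + M * k) - Real.log 2 ≤ Real.log (Zq p z A (k + M * k) q) := by
    have h1 := Real.log_le_log (sZ_pos hp hq (k + M * k)) hcap2
    rw [Real.log_mul (by norm_num) hZn.ne'] at h1
    show Real.log (sZ p z q (k + M * k)) - Real.log 2 ≤ _
    linarith
  have hMk0 : (0 : ℝ) ≤ (M : ℝ) * k := by positivity
  have hkMk : (k : ℝ) ≤ M * k := by exact_mod_cast hkM
  -- truncation
  have htr : 2 ^ q * Zq p z A (M * k) q ≤ 100 ^ k * Zq p z A (k + M * k) q := by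
    have h100 : (4 : ℝ) ≤ Real.log 100 := by
      have h : Real.exp 4 ≤ 100 := by
        have h1 := Real.exp_one_lt_d9
        have h2 : Real.exp 4 = Real.exp 1 ^ 4 := by rw [← Real.exp_nat_mul]; norm_num
        rw [h2]
        calc Real.exp 1 ^ 4 ≤ (2.7182818286 : ℝ) ^ 4 := pow_le_pow_left₀ (Real.exp_pos 1).le h1.le 4
          _ ≤ 100 := by norm_num
      rw [Real.le_log_iff_exp_le (by norm_num)]
      exact h
    have h1 : Real.log (2 ^ q * Zq p z A (M * k) q) ≤
        Real.log (100 ^ k * Zq p z A (k + M * k) q) := by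
      rw [Real.log_mul (by positivity) hZm.ne', Real.log_mul (by positivity) hZn.ne',
        Real.log_pow, Real.log_pow]
      have h2 : (k : ℝ) * 4 ≤ k * Real.log 100 := mul_le_mul_of_nonneg_left h100 (by linarith)
      have h3 : ((q : ℝ) + 1) * Real.log 2 ≤ k * 1 :=
        mul_le_mul hkq hlog2'.le hlog2.le (by linarith)
      have h4 : d * (M * k) ≤ 1 * k := by
        have := mul_le_mul_of_nonneg_right hdM (show (0 : ℝ) ≤ k by linarith)
        linarith
      have h5 : 0 ≤ (k : ℝ) * L := by nlinarith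
      have h6 : (L + d) * (M * k) = L * (M * k) + d * (M * k) := by ring
      have h7 : ((k : ℝ) + M * k) * L = k * L + L * (M * k) := by ring
      linarith
    exact (Real.log_le_log_iff (by positivity) (by positivity)).1 h1
  have hZG := ZG_ge (M := M) hodd hq A k (M * k) hMa hMb htr
  have hG : 0 < ZG p z M A k (M * k) q := by
    have h2 : (0 : ℝ) < 2 ^ q := by positivity
    by_contra hneg
    push Not at hneg
    have := mul_nonpos_of_nonneg_of_nonpos h2.le hneg
    linarith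
  have hlogG : Real.log (Zq p z A (k + M * k) q) - q * Real.log 2 ≤
      Real.log (ZG p z M A k (M * k) q) := by
    have h1 := Real.log_le_log hZn hZG
    rw [Real.log_mul (by positivity) hG.ne', Real.log_pow] at h1
    linarith
  set GEE : ℝ := GE p z M A k (M * k) q with hGE
  have hGEeq : GEE = Real.log (Zq p z A k q) + Real.log (Zq p z A (M * k) q)
      - Real.log (ZG p z M A k (M * k) q) := rfl
  have hdk : 0 ≤ d * k := by positivity
  have hdkM : d * k ≤ d * (M * k) := mul_le_mul_of_nonneg_left hkMk hd0.le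
  have hGEle : GEE ≤ 2 * (d * (M * k)) + (q + 1) * Real.log 2 := by
    rw [hGEeq]
    have h6 : (L + d) * (M * k) = L * (M * k) + d * (M * k) := by ring
    have h7 : ((k : ℝ) + M * k) * L = k * L + L * (M * k) := by ring
    have h8 : (L + d) * k = k * L + d * k := by ring
    linarith
  have hGE0 : 0 ≤ GEE := by
    rw [hGEeq]
    have h1 := Real.log_le_log hG (ZG_le (M := M) hp hq A k (M * k))
    have h2 := Real.log_le_log hZn (Zq_sub hodd (q := q) (by omega) A k (M * k))
    rw [Real.log_mul hZk.ne' hZm.ne'] at h2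
    linarith
  -- apply core
  have hZl : ∀ A, Zq p z A l q ≤ Real.exp (u l) := by
    intro A
    show _ ≤ Real.exp (Real.log (sZ p z q l))
    rw [Real.exp_log (sZ_pos hp hq l)]
    exact Zq_le_sZ hodd A l q
  have hcast : (((M * k : ℕ)) : ℝ) = M * k := by push_cast; ring
  refine hm (M * k) (by omega) (u l) hζ (Gs p M A k (M * k)) (Gw p z M A k (M * k) q) (Gγ p k)
    (GX p k) (GY p k) (fun i g y => GR p z M A k (M * k) l i g y)
    (Gw_nonneg hp hG) (Gw_total hp hq hG) (fun i g y => GR_nonneg _ i g y)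
    (fun i hi => GR_pos hp hq hG i hi)
    (fun i hi ω hω => GR_sum hp _ i hi _ _)
    (fun i hi ω hω => (GR_sum_pow hp hq _ i hi _ _ hA1).trans (hZl A)) ?_ ?_ ?_
  · refine le_trans ?_ (law_X hp hq hk1 hA1 hG)
    rw [hcast]
    -- lower bound for the first moment
    have hZk2 : k * L - d * (M * k) - (q + 1) * Real.log 2 ≤ Real.log (Zq p z A k q) := by
      have h6 : (L + d) * (M * k) = L * (M * k) + d * (M * k) := by ring
      have h7 : ((k : ℝ) + M * k) * L = k * L + L * (M * k) := by ring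
      linarith
    have hX : k * (2 * M * c) - d * (M * k) - (q + 1) * Real.log 2 ≤
        (Real.log (Zq p z A k q) - k * L1 p z q) / (q - 1) := by
      rw [← h120, le_div_iff₀ hq10]
      have h8 : (k * ((L - L1 p z q) / (q - 1)) - d * (M * k) - (q + 1) * Real.log 2) * (q - 1) =
          k * (L - L1 p z q) - (q - 1) * (d * (M * k) + (q + 1) * Real.log 2) := by
        field_simp
        ring
      rw [h8]
      have h9 : 0 ≤ d * (M * k) + (q + 1) * Real.log 2 := by positivity
      have h10 : 1 * (d * (M * k) + (q + 1) * Real.log 2) ≤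
          (q - 1) * (d * (M * k) + (q + 1) * Real.log 2) :=
        mul_le_mul_of_nonneg_right (by linarith) h9
      linarith
    have hlogk : Real.log (M * k + 1) ≤ c / 4 * (M * k + 1) - 1 - Real.log (c / 4) := by
      have hx : (0 : ℝ) < M * k + 1 := by linarith
      have h1 := Real.log_le_sub_one_of_pos (mul_pos (show (0 : ℝ) < c / 4 by positivity) hx)
      rw [Real.log_mul (by positivity) hx.ne'] at h1
      linarith
    have h3 : d * (M * k) ≤ c / 100 * (M * k) := mul_le_mul_of_nonneg_right hdc hMk0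
    have h4 : c / 2 * k ≤ c / 2 * (M * k) := mul_le_mul_of_nonneg_left hkMk (by positivity)
    have h5 : 0 ≤ c * (M * k) := by positivity
    show c * (M * k) ≤ (Real.log (Zq p z A k q) - k * L1 p z q) / (q - 1) - 3 * GEE
      - Real.log (M * k + 1)
    have h6 : (k : ℝ) * (2 * M * c) = 2 * (c * (M * k)) := by ring
    rw [h6] at hX
    linarith
  · refine le_trans (law_sum hp hq hk1 hA1 hG) ?_
    rw [hcast]
    show 4 * GEE ≤ δ * (M * k)
    have h3 : d * (M * k) ≤ δ / 100 * (M * k) := mul_le_mul_of_nonneg_right hdδ hMk0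
    have h4 : δ / 2 * k ≤ δ / 2 * (M * k) := mul_le_mul_of_nonneg_left hkMk (by positivity)
    have h5 : 0 ≤ δ * (M * k) := by positivity
    linarith
  · intro r hr
    refine le_trans ?_ (law_R hp hq hk1 hA1 hl1 hG r hr)
    rw [hcast]
    show u l / l * (M * k) - ε₀ * (M * k) ≤
      Real.log (Zq p z A (M * k) q) - 2 * GEE - 2 * q * l * Real.log p
    have h1 : u l / l ≤ L + ε₀ / 4 := by rw [div_le_iff₀ hlr]; exact hul
    have h2 : u l / l * (M * k) ≤ (L + ε₀ / 4) * (M * k) :=
      mul_le_mul_of_nonneg_right h1 hMk0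
    have h3 : d * (M * k) ≤ ε₀ / 100 * (M * k) := mul_le_mul_of_nonneg_right hdε hMk0
    have h4 : ε₀ / 2 * k ≤ ε₀ / 2 * (M * k) := mul_le_mul_of_nonneg_left hkMk (by positivity)
    have h4' : 0 ≤ ε₀ * (M * k) := by positivity
    have h5 : Real.log (Zq p z A (M * k) q) = GEE + Real.log (ZG p z M A k (M * k) q)
        - Real.log (Zq p z A k q) := by rw [hGEeq]; ring
    rw [h5]
    have h6 : (L + ε₀ / 4) * (M * k) = L * (M * k) + ε₀ * (M * k) / 4 := by ring
    have h7 : ((k : ℝ) + M * k) * L = k * L + L * (M * k) := by ring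
    have h8 : (L + d) * k = k * L + d * k := by ring
    linarith

end

/-- THE MOMENTS -/
theorem Zq_upper {p q : ℕ} {z : ℝ} [hz : Fact (ZC p z)] (hp : p = 3 ∨ p = 5) (hq : 2 ≤ q) {ε : ℝ} (hε : 0 < ε) :
    ∃ n₀ : ℕ, ∀ n, n₀ ≤ n → ∀ A, Zq p z A n q ≤
      Real.exp ((max (Real.log p) (L1 p z q) + ε) * n) := by
  have h1 : ∀ᶠ n : ℕ in atTop, Real.log (sZ p z q n) / n < max (Real.log p) (L1 p z q) + ε :=
    (tendsto_order.1 ((sub_log (p := p) (q := q) (z := z) hp hq).tendsto_lim (bdd hp hq))).2 _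
      (by have := lim_le (p := p) (q := q) (z := z) hp hq; linarith)
  obtain ⟨n₁, hn₁⟩ := eventually_atTop.1 h1
  refine ⟨max n₁ 1, fun n hn A => ?_⟩
  have hn1 : 1 ≤ n := le_trans (le_max_right _ _) hn
  have hn0 : (0 : ℝ) < n := by exact_mod_cast hn1
  have h2 := hn₁ n (le_trans (le_max_left _ _) hn)
  rw [div_lt_iff₀ hn0] at h2
  refine le_trans (Zq_le_sZ (odd_of hp) A n q) ?_
  rw [← Real.log_le_iff_le_exp (sZ_pos hp hq n)]
  exact h2.le

/-- with a constant -/
theorem Zq_upper' {p q : ℕ} {z : ℝ} [hz : Fact (ZC p z)] (hp : p = 3 ∨ p = 5) (hq : 2 ≤ q) {ε : ℝ} (hε : 0 < ε) :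
    ∃ C : ℝ, 0 < C ∧ ∀ n A : ℕ, Zq p z A n q ≤
      C * Real.exp ((max (Real.log p) (L1 p z q) + ε) * n) := by
  obtain ⟨n₀, hn₀⟩ := Zq_upper (z := z) hp hq hε
  have hp1 : (1 : ℝ) ≤ p := by exact_mod_cast (prime_of hp).one_le
  have hlogp := log_p_gt hp
  refine ⟨(p : ℝ) ^ (n₀ * (q + 1)), by positivity, fun n A => ?_⟩
  have hC : (1 : ℝ) ≤ (p : ℝ) ^ (n₀ * (q + 1)) := one_le_pow₀ hp1
  have hexp : 1 ≤ Real.exp ((max (Real.log p) (L1 p z q) + ε) * n) := by
    apply Real.one_le_exp
    have h5 : 0 < max (Real.log p) (L1 p z q) := lt_of_lt_of_le (by linarith) (le_max_left _ _)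
    positivity
  rcases le_or_gt n₀ n with h | h
  · refine (hn₀ n h A).trans ?_
    have := Real.exp_pos ((max (Real.log p) (L1 p z q) + ε) * n)
    nlinarith
  · refine (Zq_le (odd_of hp) A n q).trans ?_
    have h6 : (p : ℝ) ^ (n * (q + 1)) ≤ (p : ℝ) ^ (n₀ * (q + 1)) :=
      pow_le_pow_right₀ hp1 (Nat.mul_le_mul_right _ h.le)
    have h7 : (0 : ℝ) < (p : ℝ) ^ (n₀ * (q + 1)) := by positivity
    nlinarith

end Pool.Agent.Y966.NQ
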